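import Pool.Agent.K7.H1.BD.Crit4

/-!
# Bottleneck deviation below three quarters: central windows

Written for MP_3a77f1_co by helper1.
-/

set_option autoImplicit false

namespace Pool.Agent.K7.H1.BD

open Finset

/-- the window of length `l` in the middle -/
theorem not_below_central {n : ℕ} {d : Fin n → ℕ} (hd : ∀ i, 0 < d i) (l : ℕ)
    (I : Finset (Fin n)) (hl : l ≤ total d) (hpar : total d % 2 = l % 2)
    (hI : ∀ i ∈ I, total d ≤ 2 * (l * d i % total d) ∧ (l * d i / total d) % 2 ≠ d i % 2)
    (hsum : l < ∑ i ∈ I, (l * d i / total d + 1)) : ¬ Below d := by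
  intro hB
  have hne : I.Nonempty := by
    rw [Finset.nonempty_iff_ne_empty]
    rintro rfl
    simp at hsum
  obtain ⟨i0, hi0⟩ := hne
  have hD := total_pos i0 hd
  have hl0 : 0 < l := by
    rcases Nat.eq_zero_or_pos l with rfl | h
    · have := (hI i0 hi0).1
      simp at this
      omega
    · exact h
  obtain ⟨a, ha⟩ : ∃ a, 2 * a + l = total d := ⟨(total d - l) / 2, by omega⟩
  have hc := hB.cond i0 hd I a (a + l) (by omega) (by omega)
  have hD' : (0 : ℚ) < total d := by exact_mod_cast hD
  have key : ∀ i ∈ I, ((l * d i / total d + 1 : ℕ) : ℤ) ≤ lo d i (a + l) - hi d i a := by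
    intro i hiI
    obtain ⟨h1, h2⟩ := hI i hiI
    have h3 : total d * (l * d i / total d) + l * d i % total d = l * d i := Nat.div_add_mod _ _
    generalize l * d i / total d = m at *
    generalize l * d i % total d = r at *
    obtain ⟨z, hz⟩ : ∃ z : ℤ, (d i : ℤ) = m + 1 + 2 * z := ⟨((d i : ℤ) - m - 1) / 2, by omega⟩
    have h3' : (total d : ℚ) * m + r = l * d i := by exact_mod_cast h3
    have hz' : (d i : ℚ) = m + 1 + 2 * z := by exact_mod_cast hz
    have ha' : 2 * (a : ℚ) + l = total d := by exact_mod_cast ha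
    have h1' : (total d : ℚ) ≤ 2 * r := by exact_mod_cast h1
    have e1 : 4 * ((a : ℚ) * d i) = 4 * z * total d + 2 * total d - 2 * r := by
      have : 4 * ((a : ℚ) * d i) = 2 * (total d - l) * d i := by rw [← ha']; ring
      rw [this]
      have e2 : 2 * ((total d : ℚ) - l) * d i = 2 * total d * d i - 2 * (l * d i) := by ring
      rw [e2, ← h3']
      conv_lhs => rw [hz']
      ring
    have hhi : hi d i a ≤ z := by
      unfold hi
      rw [Int.ceil_le, sub_le_iff_le_add, ← mul_div_assoc, div_le_iff₀ hD']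
      nlinarith
    have hlo : z + m + 1 ≤ lo d i (a + l) := by
      unfold lo
      rw [Int.le_floor]
      push_cast
      rw [← mul_div_assoc, ← sub_le_iff_le_add, le_div_iff₀ hD']
      nlinarith
    push_cast
    linarith
  have h1 := Finset.sum_le_sum key
  have h2 : ((∑ i ∈ I, (l * d i / total d + 1) : ℕ) : ℤ) ≤ l := by
    push_cast
    push_cast at h1 hc
    linarith
  have h3 : ∑ i ∈ I, (l * d i / total d + 1) ≤ l := by exact_mod_cast h2
  omega

/-- three odd demands between `D / 4` and `D / 2`, `D` even -/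
theorem not_below_three {n : ℕ} {d : Fin n → ℕ} (hd : ∀ i, 0 < d i) (hpar : total d % 2 = 0)
    (h : 3 ≤ #{i | d i % 2 = 1 ∧ total d ≤ 4 * d i ∧ 2 * d i < total d}) : ¬ Below d := by
  have hpos : 0 < total d := by
    have hne : (univ.filter fun i => d i % 2 = 1 ∧ total d ≤ 4 * d i ∧
        2 * d i < total d).Nonempty := Finset.card_pos.1 (by omega)
    obtain ⟨i, hi⟩ := hne
    rw [Finset.mem_filter] at hi
    omega
  have hlt : ∀ i ∈ univ.filter (fun i => d i % 2 = 1 ∧ total d ≤ 4 * d i ∧ 2 * d i < total d),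
      2 * d i / total d = 0 := by
    intro i hi
    rw [Finset.mem_filter] at hi
    exact Nat.div_eq_of_lt hi.2.2.2
  refine not_below_central hd 2 (univ.filter fun i => d i % 2 = 1 ∧ total d ≤ 4 * d i ∧
    2 * d i < total d) (by omega) (by omega) ?_ ?_
  · intro i hi
    rw [hlt i hi]
    rw [Finset.mem_filter] at hi
    rw [Nat.mod_eq_of_lt hi.2.2.2]
    omega
  · rw [Finset.sum_congr rfl fun i hi => by rw [hlt i hi]]
    rw [Finset.sum_const, smul_eq_mul]
    omega

end Pool.Agent.K7.H1.BD
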