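import Pool.Agent.K7.H1.BD.Edf

/-!
# Bottleneck deviation below three quarters: the criterion

Written for MP_3a77f1_co by helper1.
-/

set_option autoImplicit false

namespace Pool.Agent.K7.H1.BD

open Finset

/-- the length `D` of the sequences of the instance `d` -/
def total {n : ℕ} (d : Fin n → ℕ) : ℕ := ∑ i, d i

/-- number of occurrences of the letter `i` among the first `k` letters of the word `s` -/
def occ {n D : ℕ} (s : Fin D → Fin n) (i : Fin n) (k : ℕ) : ℕ :=
  #{t : Fin D | (t : ℕ) < k ∧ s t = i}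

/-- some sequence for `d` has bottleneck deviation less than `3/4` -/
def Below {n : ℕ} (d : Fin n → ℕ) : Prop :=
  ∃ s : Fin (total d) → Fin n, (∀ i, occ s i (total d) = d i) ∧
    ∀ i k, 1 ≤ k → k ≤ total d → |(occ s i k : ℚ) - k * (d i / total d)| < 3 / 4

/-- the least integer larger than `k r_i - 3/4` -/
def lo {n : ℕ} (d : Fin n → ℕ) (i : Fin n) (k : ℕ) : ℤ := ⌊(k : ℚ) * (d i / total d) + 1 / 4⌋

/-- the largest integer smaller than `k r_i + 3/4` -/
def hi {n : ℕ} (d : Fin n → ℕ) (i : Fin n) (k : ℕ) : ℤ := ⌈(k : ℚ) * (d i / total d) - 1 / 4⌉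

theorem dev_iff (x : ℤ) (y : ℚ) : |(x : ℚ) - y| < 3 / 4 ↔ ⌊y + 1 / 4⌋ ≤ x ∧ x ≤ ⌈y - 1 / 4⌉ := by
  rw [abs_lt]
  have h1 : ⌊y + 1 / 4⌋ ≤ x ↔ y + 1 / 4 < (x : ℚ) + 1 := by
    rw [← Int.lt_add_one_iff, Int.floor_lt]
    push_cast
    rfl
  have h2 : x ≤ ⌈y - 1 / 4⌉ ↔ (x : ℚ) - 1 < y - 1 / 4 := by
    rw [← Int.sub_one_lt_iff, Int.lt_ceil]
    push_cast
    rfl
  rw [h1, h2]
  constructor
  · rintro ⟨h3, h4⟩
    constructor <;> linarith
  · rintro ⟨h3, h4⟩
    constructor <;> linarith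

theorem occ_eq_cnt {n D : ℕ} (s : ℕ → Fin n) (i : Fin n) {k : ℕ} (h : k ≤ D) :
    occ (fun t : Fin D => s t) i k = cnt s i k := by
  unfold occ cnt
  rw [← Finset.card_map Fin.valEmbedding]
  congr 1
  ext t
  simp only [Finset.mem_map, Finset.mem_filter, Finset.mem_univ, true_and, Fin.valEmbedding_apply,
    Finset.mem_range]
  constructor
  · rintro ⟨a, ⟨h1, h2⟩, rfl⟩
    exact ⟨h1, h2⟩
  · rintro ⟨h1, h2⟩
    exact ⟨⟨t, by omega⟩, ⟨h1, h2⟩, rfl⟩

theorem exists_ext {n D : ℕ} (i0 : Fin n) (s : Fin D → Fin n) :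
    ∃ S : ℕ → Fin n, s = fun t : Fin D => S t := by
  refine ⟨fun t => if h : t < D then s ⟨t, h⟩ else i0, ?_⟩
  funext t
  simp

theorem cnt_mono {n : ℕ} (s : ℕ → Fin n) (i : Fin n) : Monotone (cnt s i) := by
  apply monotone_nat_of_le_succ
  intro k
  rw [cnt_succ]
  omega

section

variable {n : ℕ} {d : Fin n → ℕ}

theorem lo_mono (i : Fin n) : Monotone (lo d i) := by
  intro a b hab
  unfold lo
  apply Int.floor_mono
  have : (a : ℚ) ≤ b := by exact_mod_cast hab
  have h2 : (0 : ℚ) ≤ (d i : ℚ) / total d := by positivity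
  nlinarith

theorem hi_mono (i : Fin n) : Monotone (hi d i) := by
  intro a b hab
  unfold hi
  apply Int.ceil_mono
  have : (a : ℚ) ≤ b := by exact_mod_cast hab
  have h2 : (0 : ℚ) ≤ (d i : ℚ) / total d := by positivity
  nlinarith

theorem hi_zero (i : Fin n) : hi d i 0 = 0 := by
  unfold hi
  rw [Int.ceil_eq_iff]
  norm_num

theorem lo_zero (i : Fin n) : lo d i 0 = 0 := by
  unfold lo
  rw [Int.floor_eq_iff]
  norm_num

theorem lo_total (hD : 0 < total d) (i : Fin n) : lo d i (total d) = d i := by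
  unfold lo
  have h : (total d : ℚ) ≠ 0 := by exact_mod_cast hD.ne'
  rw [mul_div_cancel₀ _ h, Int.floor_eq_iff]
  push_cast
  constructor <;> linarith

theorem hi_total (hD : 0 < total d) (i : Fin n) : hi d i (total d) = d i := by
  unfold hi
  have h : (total d : ℚ) ≠ 0 := by exact_mod_cast hD.ne'
  rw [mul_div_cancel₀ _ h, Int.ceil_eq_iff]
  push_cast
  constructor <;> linarith

theorem total_pos (i0 : Fin n) (hd : ∀ i, 0 < d i) : 0 < total d :=
  lt_of_lt_of_le (hd i0) (Finset.single_le_sum (f := d) (fun _ _ => Nat.zero_le _)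
    (Finset.mem_univ i0))

/-- bounds of the counts of a sequence with deviation below `3/4` -/
theorem Below.exists_cnt (i0 : Fin n) (hd : ∀ i, 0 < d i) (h : Below d) :
    ∃ s : ℕ → Fin n, ∀ k ≤ total d, ∀ i, lo d i k ≤ (cnt s i k : ℤ) ∧ (cnt s i k : ℤ) ≤ hi d i k := by
  obtain ⟨s, _, h2⟩ := h
  obtain ⟨S, rfl⟩ := exists_ext i0 s
  refine ⟨S, fun k hk i => ?_⟩
  rcases Nat.eq_zero_or_pos k with rfl | hk0
  · rw [cnt_zero, lo_zero, hi_zero]
    simp
  · have := h2 i k hk0 hk
    rw [occ_eq_cnt S i hk] at this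
    have h3 := (dev_iff (cnt S i k : ℤ) ((k : ℚ) * (d i / total d))).1 (by exact_mod_cast this)
    exact h3

theorem below_of_cond (i0 : Fin n) (hd : ∀ i, 0 < d i)
    (C : ∀ a b : ℕ, a ≤ b → b ≤ total d → ∑ i, max (lo d i b - hi d i a) 0 ≤ (b : ℤ) - a) :
    Below d := by
  have hD := total_pos i0 hd
  obtain ⟨s, hs⟩ := edf i0 (total d) (lo d) (hi d) lo_mono hi_mono hi_zero
    (fun i => by rw [lo_total hD, hi_total hD])
    (by
      rw [Finset.sum_congr rfl fun i _ => lo_total hD i]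
      unfold total
      push_cast
      rfl) C
  refine ⟨fun t => s t, fun i => ?_, fun i k _ hk => ?_⟩
  · rw [occ_eq_cnt s i le_rfl]
    have := hs (total d) le_rfl i
    rw [lo_total hD, hi_total hD] at this
    omega
  · rw [occ_eq_cnt s i hk]
    have := (dev_iff (cnt s i k : ℤ) ((k : ℚ) * (d i / total d))).2 (hs k hk i)
    exact_mod_cast this

/-- the condition for a set `I` of letters -/
def Cond (d : Fin n → ℕ) (I : Finset (Fin n)) : Prop :=
  ∀ a b : ℕ, a < b → b ≤ total d → ∑ i ∈ I, (lo d i b - hi d i a) ≤ (b : ℤ) - a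

theorem Below.cond (i0 : Fin n) (hd : ∀ i, 0 < d i) (h : Below d) (I : Finset (Fin n)) :
    Cond d I := by
  intro a b hab hb
  obtain ⟨s, hs⟩ := h.exists_cnt i0 hd
  have h1 : ∑ i ∈ I, (lo d i b - hi d i a) ≤ ∑ i ∈ I, ((cnt s i b : ℤ) - cnt s i a) := by
    apply Finset.sum_le_sum
    intro i _
    have h2 := (hs b hb i).1
    have h3 := (hs a (by omega) i).2
    linarith
  have h2 : ∑ i ∈ I, ((cnt s i b : ℤ) - cnt s i a) ≤ ∑ i, ((cnt s i b : ℤ) - cnt s i a) := by
    apply Finset.sum_le_sum_of_subset_of_nonneg (Finset.subset_univ I)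
    intro i _ _
    have := cnt_mono s i hab.le
    have h3 : (cnt s i a : ℤ) ≤ cnt s i b := by exact_mod_cast this
    linarith
  have h3 : ∑ i, ((cnt s i b : ℤ) - cnt s i a) = (b : ℤ) - a := by
    rw [Finset.sum_sub_distrib]
    have h4 : (∑ i, (cnt s i b : ℤ)) = b := by exact_mod_cast sum_cnt s b
    have h5 : (∑ i, (cnt s i a : ℤ)) = a := by exact_mod_cast sum_cnt s a
    rw [h4, h5]
  linarith

theorem lo_le (i : Fin n) (k : ℕ) : (lo d i k : ℚ) ≤ (k : ℚ) * (d i / total d) + 1 / 4 :=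
  Int.floor_le _

theorem le_hi (i : Fin n) (k : ℕ) : (k : ℚ) * (d i / total d) - 1 / 4 ≤ (hi d i k : ℚ) :=
  Int.le_ceil _

theorem sum_rate (i0 : Fin n) (hd : ∀ i, 0 < d i) : ∑ i, (d i : ℚ) / total d = 1 := by
  have hD := total_pos i0 hd
  rw [← Finset.sum_div, div_eq_one_iff_eq (by exact_mod_cast hD.ne')]
  unfold total
  push_cast
  rfl

/-- total deviation allowed by a set of letters -/
theorem sum_le (i0 : Fin n) (hd : ∀ i, 0 < d i) (I : Finset (Fin n)) {a b : ℕ} (hab : a ≤ b) :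
    ((∑ i ∈ I, (lo d i b - hi d i a) : ℤ) : ℚ) ≤
      ((b : ℚ) - a) * (1 - ∑ i ∈ Iᶜ, (d i : ℚ) / total d) + #I / 2 := by
  have h1 : ((∑ i ∈ I, (lo d i b - hi d i a) : ℤ) : ℚ) ≤
      ∑ i ∈ I, (((b : ℚ) - a) * ((d i : ℚ) / total d) + 1 / 2) := by
    push_cast
    apply Finset.sum_le_sum
    intro i _
    have h2 := lo_le (d := d) i b
    have h3 := le_hi (d := d) i a
    linarith
  rw [Finset.sum_add_distrib, ← Finset.mul_sum, Finset.sum_const, nsmul_eq_mul] at h1
  have h4 := sum_rate i0 hd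
  rw [← Finset.sum_add_sum_compl I] at h4
  have h5 : ∑ i ∈ I, (d i : ℚ) / total d = 1 - ∑ i ∈ Iᶜ, (d i : ℚ) / total d := by linarith
  rw [h5] at h1
  linarith

/-- at most three letters of the whole alphabet -/
theorem cond_univ (i0 : Fin n) (hd : ∀ i, 0 < d i) (hn : n ≤ 3) : Cond d univ := by
  intro a b hab hb
  have h4 := sum_rate i0 hd
  have h1 : (∑ i, (lo d i b : ℚ)) ≤ b + 3 / 4 := by
    calc (∑ i, (lo d i b : ℚ)) ≤ ∑ i, ((b : ℚ) * (d i / total d) + 1 / 4) :=
          Finset.sum_le_sum fun i _ => lo_le i b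
      _ = b + n * (1 / 4) := by
          rw [Finset.sum_add_distrib, ← Finset.mul_sum, h4, Finset.sum_const, nsmul_eq_mul]
          simp
      _ ≤ b + 3 / 4 := by
          have : (n : ℚ) ≤ 3 := by exact_mod_cast hn
          linarith
  have h2 : (a : ℚ) - 3 / 4 ≤ ∑ i, (hi d i a : ℚ) := by
    calc (a : ℚ) - 3 / 4 ≤ a - n * (1 / 4) := by
          have : (n : ℚ) ≤ 3 := by exact_mod_cast hn
          linarith
      _ = ∑ i, ((a : ℚ) * (d i / total d) - 1 / 4) := by
          rw [Finset.sum_sub_distrib, ← Finset.mul_sum, h4, Finset.sum_const, nsmul_eq_mul]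
          simp
      _ ≤ ∑ i, (hi d i a : ℚ) := Finset.sum_le_sum fun i _ => le_hi i a
  have h5 : ∑ i, lo d i b ≤ (b : ℤ) := by
    have : (∑ i, lo d i b : ℤ) < (b : ℤ) + 1 := by
      have h6 : ((∑ i, lo d i b : ℤ) : ℚ) < ((b : ℤ) + 1 : ℤ) := by
        push_cast
        linarith
      exact_mod_cast h6
    omega
  have h6 : (a : ℤ) ≤ ∑ i, hi d i a := by
    have : (a : ℤ) - 1 < ∑ i, hi d i a := by
      have h7 : (((a : ℤ) - 1 : ℤ) : ℚ) < ((∑ i, hi d i a : ℤ) : ℚ) := by
        push_cast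
        linarith
      exact_mod_cast h7
    omega
  rw [Finset.sum_sub_distrib]
  linarith

/-- sets of at most two letters make no condition if they are not the whole alphabet -/
theorem cond_small (i0 : Fin n) (hd : ∀ i, 0 < d i) {I : Finset (Fin n)} (hI : #I ≤ 2)
    (hne : I ≠ univ) : Cond d I := by
  intro a b hab hb
  have hD := total_pos i0 hd
  have h1 := sum_le i0 hd I hab.le
  have h2 : 0 < ∑ i ∈ Iᶜ, (d i : ℚ) / total d := by
    apply Finset.sum_pos
    · intro i _
      have := hd i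
      positivity
    · rw [Finset.nonempty_iff_ne_empty, Ne, Finset.compl_eq_empty_iff]
      exact hne
  have h3 : ((#I : ℕ) : ℚ) / 2 ≤ 1 := by
    have : (#I : ℚ) ≤ 2 := by exact_mod_cast hI
    linarith
  have h4 : (0 : ℚ) < (b : ℚ) - a := by
    have : (a : ℚ) < b := by exact_mod_cast hab
    linarith
  have h5 : ((∑ i ∈ I, (lo d i b - hi d i a) : ℤ) : ℚ) < (((b : ℤ) - a + 1 : ℤ) : ℚ) := by
    push_cast
    push_cast at h1
    nlinarith [mul_pos h4 h2]
  have h6 : (∑ i ∈ I, (lo d i b - hi d i a) : ℤ) < (b : ℤ) - a + 1 := by exact_mod_cast h5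
  omega

theorem lo_le_hi (i : Fin n) (a : ℕ) : lo d i a ≤ hi d i a := by
  have h1 := lo_le (d := d) i a
  have h2 := le_hi (d := d) i a
  have h3 : ((lo d i a : ℤ) : ℚ) < ((hi d i a + 1 : ℤ) : ℚ) := by
    push_cast
    linarith
  have h4 : lo d i a < hi d i a + 1 := by exact_mod_cast h3
  omega

theorem below_of_forall (i0 : Fin n) (hd : ∀ i, 0 < d i) (h : ∀ I : Finset (Fin n), Cond d I) :
    Below d := by
  refine below_of_cond i0 hd fun a b hab hb => ?_
  rcases Nat.lt_or_ge a b with hlt | hge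
  · have h1 : ∑ i, max (lo d i b - hi d i a) 0 =
        ∑ i ∈ univ.filter (fun i => 0 < lo d i b - hi d i a), (lo d i b - hi d i a) := by
      rw [Finset.sum_filter]
      apply Finset.sum_congr rfl
      intro i _
      split_ifs with h2
      · exact max_eq_left h2.le
      · exact max_eq_right (by linarith)
    rw [h1]
    exact h _ a b hlt hb
  · obtain rfl : a = b := by omega
    have h1 : ∑ i, max (lo d i a - hi d i a) 0 = 0 := by
      apply Finset.sum_eq_zero
      intro i _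
      apply max_eq_right
      have := lo_le_hi (d := d) i a
      linarith
    rw [h1]
    simp

/-- **Criterion.** -/
theorem below_iff (i0 : Fin n) (hd : ∀ i, 0 < d i) :
    Below d ↔ ∀ I : Finset (Fin n), 3 ≤ #I → Cond d I := by
  constructor
  · intro h I _
    exact h.cond i0 hd I
  · intro h
    refine below_of_forall i0 hd fun I => ?_
    rcases Nat.lt_or_ge 2 #I with h3 | h2
    · exact h I h3
    · by_cases hu : I = univ
      · subst hu
        apply cond_univ i0 hd
        rw [Finset.card_univ, Fintype.card_fin] at h2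
        omega
      · exact cond_small i0 hd h2 hu

/-- at most three letters -/
theorem below_of_le_three (i0 : Fin n) (hd : ∀ i, 0 < d i) (hn : n ≤ 3) : Below d := by
  rw [below_iff i0 hd]
  intro I hI
  have hu : I = univ := by
    apply Finset.eq_univ_of_card
    rw [Fintype.card_fin]
    have := Finset.card_le_univ I
    rw [Fintype.card_fin] at this
    omega
  subst hu
  exact cond_univ i0 hd hn

end

end Pool.Agent.K7.H1.BD
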