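import Pool.Agent.K7.H1.BD.Crit

/-!
# Bottleneck deviation below three quarters: restricted windows and four letters

Written for MP_3a77f1_co by helper1.
-/

set_option autoImplicit false

namespace Pool.Agent.K7.H1.BD

open Finset

section

variable {n : ℕ} {d : Fin n → ℕ}

/-- only short windows matter -/
theorem cond_iff_window (i0 : Fin n) (hd : ∀ i, 0 < d i) (I : Finset (Fin n)) (hI : 2 ≤ #I) :
    Cond d I ↔ ∀ a b : ℕ, a < b → b ≤ total d →
      2 * (b - a) * ∑ i ∈ Iᶜ, d i ≤ (#I - 2) * total d →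
      ∑ i ∈ I, (lo d i b - hi d i a) ≤ (b : ℤ) - a := by
  constructor
  · intro h a b hab hb _
    exact h a b hab hb
  · intro h a b hab hb
    by_cases hw : 2 * (b - a) * ∑ i ∈ Iᶜ, d i ≤ (#I - 2) * total d
    · exact h a b hab hb hw
    · push Not at hw
      have hD := total_pos i0 hd
      have hD' : (0 : ℚ) < total d := by exact_mod_cast hD
      have h1 := sum_le i0 hd I hab.le
      have h2 : ((#I : ℚ) - 2) * total d < 2 * ((b : ℚ) - a) * ∑ i ∈ Iᶜ, (d i : ℚ) := by
        have h3 : (((#I - 2) * total d : ℕ) : ℚ) < ((2 * (b - a) * ∑ i ∈ Iᶜ, d i : ℕ) : ℚ) := by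
          exact_mod_cast hw
        push_cast [Nat.cast_sub hI, Nat.cast_sub hab.le] at h3
        exact h3
      have h3 : ∑ i ∈ Iᶜ, (d i : ℚ) / total d = (∑ i ∈ Iᶜ, (d i : ℚ)) / total d := by
        rw [Finset.sum_div]
      have h4 : ((#I : ℚ) - 2) / 2 < ((b : ℚ) - a) * ((∑ i ∈ Iᶜ, (d i : ℚ)) / total d) := by
        rw [← mul_div_assoc, lt_div_iff₀ hD']
        linarith
      have h5 : ((∑ i ∈ I, (lo d i b - hi d i a) : ℤ) : ℚ) < (((b : ℤ) - a + 1 : ℤ) : ℚ) := by
        rw [h3] at h1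
        push_cast
        push_cast at h1
        linarith
      have h6 : (∑ i ∈ I, (lo d i b - hi d i a) : ℤ) < (b : ℤ) - a + 1 := by exact_mod_cast h5
      omega

theorem below_iff_window (i0 : Fin n) (hd : ∀ i, 0 < d i) :
    Below d ↔ ∀ I : Finset (Fin n), 3 ≤ #I → ∀ a b : ℕ, a < b → b ≤ total d →
      2 * (b - a) * ∑ i ∈ Iᶜ, d i ≤ (#I - 2) * total d →
      ∑ i ∈ I, (lo d i b - hi d i a) ≤ (b : ℤ) - a := by
  rw [below_iff i0 hd]
  apply forall_congr'
  intro I
  constructor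
  · intro h hI
    exact (cond_iff_window i0 hd I (by omega)).1 (h hI)
  · intro h hI
    exact (cond_iff_window i0 hd I (by omega)).2 (h hI)

/-- if all `k r_i` are `c/4` modulo one with `c = ±1`, then all demands are odd and congruent
modulo four -/
theorem all_odd (i0 : Fin n) (hd : ∀ i, 0 < d i) (hg : univ.gcd d = 1) (k : ℕ) (q : Fin n → ℤ)
    (c : ℤ) (hc : c = 1 ∨ c = -1)
    (h : ∀ i, 4 * (k : ℤ) * d i = total d * (4 * q i + c)) :
    ∀ i, d i % 4 = d i0 % 4 ∧ d i % 2 = 1 := by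
  have hD := total_pos i0 hd
  have h1 : total d ∣ 4 * k := by
    have h2 : total d ∣ univ.gcd (fun i => (4 * k) * d i) := by
      apply Finset.dvd_gcd
      intro i _
      rw [← Int.natCast_dvd_natCast]
      push_cast
      exact ⟨4 * q i + c, h i⟩
    rw [Finset.gcd_mul_left, hg] at h2
    simpa using h2
  obtain ⟨t, ht⟩ := h1
  have h3 : ∀ i, (t : ℤ) * d i = 4 * q i + c := by
    intro i
    have h4 : (total d : ℤ) ≠ 0 := by exact_mod_cast hD.ne'
    apply mul_left_cancel₀ h4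
    rw [← h i, ← mul_assoc]
    congr 1
    exact_mod_cast ht.symm
  have h5 : ∃ u r : ℤ, (t : ℤ) = 4 * u + r ∧ (r = 0 ∨ r = 1 ∨ r = 2 ∨ r = 3) := by
    refine ⟨(t : ℤ) / 4, (t : ℤ) % 4, by omega, by omega⟩
  obtain ⟨u, r, hur, hr⟩ := h5
  have h6 : ∀ i, 4 * (u * d i) + r * d i = 4 * q i + c := by
    intro i
    rw [← h3 i, hur]
    ring
  intro i
  have h7 := h6 i
  have h8 := h6 i0
  generalize u * (d i : ℤ) = w at h7
  generalize u * (d i0 : ℤ) = w' at h8
  rcases hr with rfl | rfl | rfl | rfl <;> rcases hc with rfl | rfl <;> omega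

end

/-- four letters, the whole alphabet -/
theorem cond_univ_four {d : Fin 4 → ℕ} (hd : ∀ i, 0 < d i) (hg : univ.gcd d = 1)
    (hno : ¬ ∀ i, d i % 4 = d 0 % 4 ∧ d i % 2 = 1) : Cond d univ := by
  have hD := total_pos 0 hd
  have hD' : (total d : ℚ) ≠ 0 := by exact_mod_cast hD.ne'
  have h4 := sum_rate 0 hd
  have hlo : ∀ b : ℕ, ∑ i, lo d i b ≤ (b : ℤ) := by
    intro b
    by_contra hcon
    push Not at hcon
    have h1 : ((b : ℤ) + 1 : ℚ) ≤ ∑ i, (lo d i b : ℚ) := by
      have : ((b : ℤ) + 1 : ℤ) ≤ ∑ i, lo d i b := by omega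
      exact_mod_cast this
    have h2 : (∑ i, ((b : ℚ) * (d i / total d) + 1 / 4)) = b + 1 := by
      rw [Finset.sum_add_distrib, ← Finset.mul_sum, h4, Finset.sum_const]
      simp
    have h3 : ∀ i ∈ (univ : Finset (Fin 4)), (lo d i b : ℚ) = (b : ℚ) * (d i / total d) + 1 / 4 := by
      apply (Finset.sum_eq_sum_iff_of_le fun i _ => lo_le i b).1
      apply le_antisymm (Finset.sum_le_sum fun i _ => lo_le i b)
      rw [h2]
      exact_mod_cast h1
    apply hno
    refine all_odd 0 hd hg b (fun i => lo d i b) (-1) (Or.inr rfl) fun i => ?_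
    have h5 := h3 i (Finset.mem_univ i)
    have h6 : (4 * (b : ℚ) * d i) = total d * (4 * (lo d i b : ℚ) + (-1)) := by
      rw [h5]
      field_simp
      ring
    exact_mod_cast h6
  have hhi : ∀ a : ℕ, (a : ℤ) ≤ ∑ i, hi d i a := by
    intro a
    by_contra hcon
    push Not at hcon
    have h1 : ∑ i, (hi d i a : ℚ) ≤ (a : ℤ) - 1 := by
      have : ∑ i, hi d i a ≤ (a : ℤ) - 1 := by omega
      exact_mod_cast this
    have h2 : (∑ i, ((a : ℚ) * (d i / total d) - 1 / 4)) = a - 1 := by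
      rw [Finset.sum_sub_distrib, ← Finset.mul_sum, h4, Finset.sum_const]
      simp
    have h3 : ∀ i ∈ (univ : Finset (Fin 4)), (a : ℚ) * (d i / total d) - 1 / 4 = (hi d i a : ℚ) := by
      apply (Finset.sum_eq_sum_iff_of_le fun i _ => le_hi i a).1
      apply le_antisymm (Finset.sum_le_sum fun i _ => le_hi i a)
      rw [h2]
      exact_mod_cast h1
    apply hno
    refine all_odd 0 hd hg a (fun i => hi d i a) 1 (Or.inl rfl) fun i => ?_
    have h5 := h3 i (Finset.mem_univ i)
    have h6 : (4 * (a : ℚ) * d i) = total d * (4 * (hi d i a : ℚ) + 1) := by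
      rw [← h5]
      field_simp
      ring
    exact_mod_cast h6
  intro a b _ _
  rw [Finset.sum_sub_distrib]
  have h1 := hlo b
  have h2 := hhi a
  linarith

/-- four demands that are odd and congruent modulo four -/
theorem not_below_of_odd {d : Fin 4 → ℕ} (hd : ∀ i, 0 < d i)
    (h : ∀ i, d i % 4 = d 0 % 4 ∧ d i % 2 = 1) : ¬ Below d := by
  intro hB
  obtain ⟨s, hs⟩ := hB.exists_cnt 0 hd
  have hD := total_pos 0 hd
  have htot : total d = d 0 + d 1 + d 2 + d 3 := by
    simp [total, Fin.sum_univ_four]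
  have h0 := h 0
  have h1 := h 1
  have h2 := h 2
  have h3 := h 3
  obtain ⟨m, hm⟩ : ∃ m, total d = 4 * m := ⟨total d / 4, by omega⟩
  have hm0 : 0 < m := by omega
  obtain ⟨t, ht, htd⟩ : ∃ t : ℕ, t ≤ 4 ∧ ∀ i, ∃ q : ℕ, t * d i + 1 = 4 * q := by
    rcases (show d 0 % 4 = 1 ∨ d 0 % 4 = 3 by omega) with h5 | h5
    · refine ⟨3, by norm_num, fun i => ⟨(3 * d i + 1) / 4, ?_⟩⟩
      have := h i
      omega
    · refine ⟨1, by norm_num, fun i => ⟨(1 * d i + 1) / 4, ?_⟩⟩
      have := h i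
      omega
  choose q hq using htd
  have hk : m * t ≤ total d := by
    rw [hm]
    nlinarith
  have hlo : ∀ i, lo d i (m * t) = q i := by
    intro i
    unfold lo
    have h6 : ((m * t : ℕ) : ℚ) * (d i / total d) + 1 / 4 = (q i : ℤ) := by
      have h7 : (4 : ℚ) * q i = t * d i + 1 := by exact_mod_cast (hq i).symm
      have h8 : (m : ℚ) ≠ 0 := by exact_mod_cast hm0.ne'
      rw [hm]
      push_cast
      field_simp
      linarith
    rw [h6, Int.floor_intCast]
  have h9 : (∑ i, (q i : ℤ)) ≤ (m * t : ℕ) := by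
    have h10 : ∑ i, (cnt s i (m * t) : ℤ) = (m * t : ℕ) := by exact_mod_cast sum_cnt s (m * t)
    rw [← h10]
    apply Finset.sum_le_sum
    intro i _
    rw [← hlo i]
    exact (hs (m * t) hk i).1
  have h11 : 4 * ∑ i, (q i : ℤ) = t * total d + 4 := by
    rw [Finset.mul_sum]
    have h12 : ∀ i, 4 * (q i : ℤ) = t * d i + 1 := fun i => by exact_mod_cast (hq i).symm
    rw [Finset.sum_congr rfl fun i _ => h12 i, Finset.sum_add_distrib, ← Finset.mul_sum]
    simp [total]
  rw [hm] at h11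
  push_cast at h11 h9
  nlinarith

/-- **Four letters.** -/
theorem below_four_iff {d : Fin 4 → ℕ} (hd : ∀ i, 0 < d i) (hg : univ.gcd d = 1) :
    Below d ↔ ¬ (∀ i, d i % 4 = d 0 % 4 ∧ d i % 2 = 1) ∧
      ∀ i, ∀ a b : ℕ, a < b → b ≤ total d → 2 * (b - a) * d i ≤ total d →
        ∑ j ∈ univ.erase i, (lo d j b - hi d j a) ≤ (b : ℤ) - a := by
  constructor
  · intro h
    exact ⟨fun hodd => not_below_of_odd hd hodd h, fun i a b hab hb _ =>
      h.cond 0 hd (univ.erase i) a b hab hb⟩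
  · rintro ⟨hno, hw⟩
    rw [below_iff 0 hd]
    intro I hI
    have hcard := Finset.card_le_univ I
    rw [Fintype.card_fin] at hcard
    rcases (show #I = 3 ∨ #I = 4 by omega) with h3 | h4
    · have h5 : #Iᶜ = 1 := by
        rw [Finset.card_compl, Fintype.card_fin, h3]
      obtain ⟨i, hi'⟩ := Finset.card_eq_one.1 h5
      have h6 : I = univ.erase i := by
        have h7 : I = (Iᶜ)ᶜ := (compl_compl I).symm
        rw [h7, hi']
        ext j
        simp
      rw [cond_iff_window 0 hd I (by omega), hi', h3]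
      intro a b hab hb hle
      rw [h6]
      apply hw i a b hab hb
      simpa using hle
    · have h6 : I = univ := Finset.eq_univ_of_card I (by rw [Fintype.card_fin]; exact h4)
      subst h6
      exact cond_univ_four hd hg hno

end Pool.Agent.K7.H1.BD
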