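import Mathlib

/-!
# Earliest deadline rule for sequences with prescribed quota windows

Written for MP_3a77f1_co by helper1.
-/

set_option autoImplicit false

namespace Pool.Agent.K7.H1.BD

open Finset

/-- number of occurrences of `i` among the first `k` letters -/
def cnt {n : ℕ} (s : ℕ → Fin n) (i : Fin n) (k : ℕ) : ℕ := #{t ∈ range k | s t = i}

theorem cnt_zero {n : ℕ} (s : ℕ → Fin n) (i : Fin n) : cnt s i 0 = 0 := by
  simp [cnt]

theorem cnt_succ {n : ℕ} (s : ℕ → Fin n) (i : Fin n) (k : ℕ) :
    cnt s i (k + 1) = cnt s i k + if s k = i then 1 else 0 := by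
  unfold cnt
  rw [Finset.range_add_one, Finset.filter_insert]
  split_ifs with h
  · rw [Finset.card_insert_of_notMem]
    simp
  · rfl

theorem cnt_update {n : ℕ} (s : ℕ → Fin n) (i j : Fin n) {m k : ℕ} (h : m ≤ k) :
    cnt (Function.update s k j) i m = cnt s i m := by
  unfold cnt
  congr 1
  apply Finset.filter_congr
  intro t ht
  rw [Finset.mem_range] at ht
  rw [Function.update_of_ne (by omega)]

theorem sum_cnt {n : ℕ} (s : ℕ → Fin n) (k : ℕ) : ∑ i, cnt s i k = k := by
  induction k with
  | zero => simp [cnt_zero]
  | succ k ih =>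
    simp only [cnt_succ, Finset.sum_add_distrib, ih]
    simp

/-- the earliest deadline rule -/
theorem edf {n : ℕ} (i0 : Fin n) (D : ℕ) (lo hi : Fin n → ℕ → ℤ)
    (hlo : ∀ i, Monotone (lo i)) (hhi : ∀ i, Monotone (hi i))
    (h0 : ∀ i, hi i 0 = 0) (hend : ∀ i, lo i D = hi i D) (hsum : ∑ i, lo i D = D)
    (C : ∀ a b : ℕ, a ≤ b → b ≤ D → ∑ i, max (lo i b - hi i a) 0 ≤ (b : ℤ) - a) :
    ∃ s : ℕ → Fin n, ∀ k ≤ D, ∀ i, lo i k ≤ (cnt s i k : ℤ) ∧ (cnt s i k : ℤ) ≤ hi i k := by
  have key : ∀ k ≤ D, ∃ s : ℕ → Fin n,
      (∀ j ≤ k, ∀ i, lo i j ≤ (cnt s i j : ℤ) ∧ (cnt s i j : ℤ) ≤ hi i j) ∧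
      ∀ b, k ≤ b → b ≤ D → ∑ i, max (lo i b - cnt s i k) 0 ≤ (b : ℤ) - k := by
    intro k
    induction k with
    | zero =>
      intro _
      have hP : ∀ b, 0 ≤ b → b ≤ D →
          ∑ i, max (lo i b - cnt (fun _ => i0) i 0) 0 ≤ (b : ℤ) - (0 : ℕ) := by
        intro b _ hb
        have := C 0 b (Nat.zero_le _) hb
        simpa [cnt_zero, h0] using this
      refine ⟨fun _ => i0, ?_, hP⟩
      intro j hj i
      obtain rfl : j = 0 := by omega
      rw [cnt_zero, h0]
      refine ⟨?_, by simp⟩
      have h1 := hP 0 le_rfl (Nat.zero_le _)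
      have h2 : max (lo i 0 - cnt (fun _ => i0) i 0) 0 ≤
          ∑ i, max (lo i 0 - cnt (fun _ => i0) i 0) 0 :=
        Finset.single_le_sum (f := fun i => max (lo i 0 - (cnt (fun _ => i0) i 0 : ℤ)) 0)
          (fun i _ => le_max_right _ _) (Finset.mem_univ i)
      have h3 := le_max_left (lo i 0 - (cnt (fun _ => i0) i 0 : ℤ)) 0
      rw [cnt_zero] at h2 h3
      simp only [cnt_zero] at h1 h2
      push_cast at *
      linarith
    | succ k ih =>
      intro hk
      obtain ⟨s, hs, hP⟩ := ih (by omega)
      classical
      have hcrit : ∃ b, k + 1 ≤ b ∧ b ≤ D ∧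
          ∑ i, max (lo i b - cnt s i k) 0 = (b : ℤ) - k := by
        refine ⟨D, hk, le_rfl, ?_⟩
        have h1 : ∀ i, max (lo i D - (cnt s i k : ℤ)) 0 = lo i D - cnt s i k := by
          intro i
          apply max_eq_left
          have h2 := (hs k le_rfl i).2
          have h3 := hhi i (show k ≤ D by omega)
          have h4 := hend i
          linarith
        rw [Finset.sum_congr rfl fun i _ => h1 i, Finset.sum_sub_distrib, hsum]
        have h5 := sum_cnt s k
        have h6 : (∑ i, (cnt s i k : ℤ)) = k := by exact_mod_cast h5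
        rw [h6]
      obtain ⟨hb1, hb2, hb3⟩ := Nat.find_spec hcrit
      set B := Nat.find hcrit with hB
      have hex : ∃ i, (cnt s i k : ℤ) < lo i B ∧ (cnt s i k : ℤ) < hi i (k + 1) := by
        by_contra hcon
        push Not at hcon
        have h1 : ∑ i, max (lo i B - cnt s i k) 0 ≤ ∑ i, max (lo i B - hi i (k + 1)) 0 := by
          apply Finset.sum_le_sum
          intro i _
          by_cases hi1 : (cnt s i k : ℤ) < lo i B
          · have := hcon i hi1
            apply max_le_max _ le_rfl
            linarith
          · push Not at hi1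
            rw [max_eq_right (by linarith)]
            exact le_max_right _ _
        have h2 := C (k + 1) B hb1 hb2
        push_cast at h2
        linarith
      obtain ⟨i, hi1, hi2⟩ := hex
      have hx : ∀ j, (cnt (Function.update s k i) j (k + 1) : ℤ) =
          cnt s j k + if i = j then 1 else 0 := by
        intro j
        rw [cnt_succ, cnt_update s j i le_rfl, Function.update_self]
        push_cast
        rfl
      have hP' : ∀ b, k + 1 ≤ b → b ≤ D →
          ∑ j, max (lo j b - cnt (Function.update s k i) j (k + 1)) 0 ≤
            (b : ℤ) - (k + 1 : ℕ) := by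
        intro b hb hbD
        have hPb := hP b (by omega) hbD
        by_cases hib : (cnt s i k : ℤ) < lo i b
        · have h1 : ∀ j, max (lo j b - cnt (Function.update s k i) j (k + 1)) 0 =
              max (lo j b - (cnt s j k : ℤ)) 0 - if i = j then 1 else 0 := by
            intro j
            rw [hx]
            split_ifs with hij
            · subst hij
              rw [max_eq_left (by linarith), max_eq_left (by linarith)]
              ring
            · rw [add_zero, sub_zero]
          rw [Finset.sum_congr rfl fun j _ => h1 j, Finset.sum_sub_distrib,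
            Finset.sum_ite_eq Finset.univ i, if_pos (Finset.mem_univ i)]
          push_cast
          linarith
        · push Not at hib
          have hbB : b < B := by
            by_contra hcon
            push Not at hcon
            have := hlo i hcon
            linarith
          have hne : ¬ (k + 1 ≤ b ∧ b ≤ D ∧
              ∑ i, max (lo i b - cnt s i k) 0 = (b : ℤ) - k) := Nat.find_min hcrit hbB
          have hne' : ∑ i, max (lo i b - cnt s i k) 0 ≠ (b : ℤ) - k :=
            fun h => hne ⟨hb, hbD, h⟩
          have h1 : ∑ j, max (lo j b - cnt (Function.update s k i) j (k + 1)) 0 ≤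
              ∑ j, max (lo j b - (cnt s j k : ℤ)) 0 := by
            apply Finset.sum_le_sum
            intro j _
            rw [hx]
            apply max_le_max _ le_rfl
            split_ifs <;> linarith
          have h2 : ∑ i, max (lo i b - cnt s i k) 0 < (b : ℤ) - k := lt_of_le_of_ne hPb hne'
          push_cast
          linarith
      refine ⟨Function.update s k i, ?_, hP'⟩
      intro j hj l
      rcases Nat.lt_or_ge k j with hlt | hge
      · obtain rfl : j = k + 1 := by omega
        constructor
        · have h1 := hP' (k + 1) le_rfl hk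
          have h2 : max (lo l (k + 1) - (cnt (Function.update s k i) l (k + 1) : ℤ)) 0 ≤
              ∑ j, max (lo j (k + 1) - (cnt (Function.update s k i) j (k + 1) : ℤ)) 0 :=
            Finset.single_le_sum
              (f := fun j => max (lo j (k + 1) - (cnt (Function.update s k i) j (k + 1) : ℤ)) 0)
              (fun i _ => le_max_right _ _) (Finset.mem_univ l)
          have h3 := le_max_left (lo l (k + 1) - (cnt (Function.update s k i) l (k + 1) : ℤ)) 0
          linarith
        · rw [hx]
          have h1 := (hs k le_rfl l).2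
          have h2 := hhi l (show k ≤ k + 1 by omega)
          split_ifs with hil
          · subst hil
            linarith
          · linarith
      · rw [cnt_update s l i hge]
        exact hs j hge l
  obtain ⟨s, hs, _⟩ := key D le_rfl
  exact ⟨s, hs⟩

end Pool.Agent.K7.H1.BD
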